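import Pool.Agent.E8helper35.Steiner.Code
import Pool.Agent.E8helper35.Steiner.Exchange
import Pool.Agent.E8helper35.Low.Final

/-!
# The number of simultaneously optimal full Steiner topologies grows exponentially

For every dimension `d ≥ 2` there is a constant `C` such that
`2 ^ ((n - 2) / 10) ≤ N d n ≤ C ^ n` for all `n ≥ 3`. So `log (N d n)` is of order `n`.
-/

set_option autoImplicit false

namespace Pool.Agent.Results.MP_816b7a_co.GrowthOrderH35

open MeasureTheory MeasureTheory.Measure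

/-- Euclidean space of dimension `d`. -/
abbrev Eu (d : ℕ) : Type := EuclideanSpace ℝ (Fin d)

/-- `S` is a Steiner tree for `A`: a compact connected set which contains `A` and has minimal
one-dimensional Hausdorff measure among all such sets. -/
def IsSteinerTree {d : ℕ} (A S : Set (Eu d)) : Prop :=
  IsCompact S ∧ IsConnected S ∧ A ⊆ S ∧
    ∀ S' : Set (Eu d), IsCompact S' → IsConnected S' → A ⊆ S' → μH[1] S ≤ μH[1] S'

/-- The vertices of a full tree with `n` terminals: the terminals `Sum.inl i` and the `n - 2`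
Steiner points `Sum.inr s`. -/
abbrev Vert (n : ℕ) : Type := Fin n ⊕ Fin (n - 2)

/-- The graph `G` is a full tree: a tree in which all terminals are leaves and all Steiner points
have degree three. -/
structure IsFull {n : ℕ} (G : SimpleGraph (Vert n)) : Prop where
  isTree : G.IsTree
  terminal : ∀ i : Fin n, (G.neighborSet (Sum.inl i)).ncard = 1
  steiner : ∀ s : Fin (n - 2), (G.neighborSet (Sum.inr s)).ncard = 3

/-- Two trees have the same topology if there is an isomorphism which fixes all terminals. -/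
def topSetoid (n : ℕ) : Setoid (SimpleGraph (Vert n)) where
  r G G' := ∃ φ : G ≃g G', ∀ i, φ (Sum.inl i) = Sum.inl i
  iseqv :=
    { refl := fun _ => ⟨RelIso.refl _, fun _ => rfl⟩
      symm := fun {_ _} h => by
        obtain ⟨φ, hφ⟩ := h
        exact ⟨φ.symm, fun i => (Equiv.symm_apply_eq φ.toEquiv).2 (hφ i).symm⟩
      trans := fun {_ _ _} h h' => by
        obtain ⟨φ, hφ⟩ := h
        obtain ⟨ψ, hψ⟩ := h'
        exact ⟨φ.trans ψ, fun i => (congrArg ψ (hφ i)).trans (hψ i)⟩ }

/-- A topology with labelled terminals and unlabelled Steiner points. -/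
def Topology (n : ℕ) : Type := Quotient (topSetoid n)

/-- The set `S` is a straight drawing of the graph `G` with terminals `a`: the vertices are at
different points, the terminals at the points `a i`, the set `S` is the union of the segments of
the edges, and the segments of two different edges meet in common endpoints only. -/
def HasTopology {d n : ℕ} (a : Fin n → Eu d) (S : Set (Eu d)) (G : SimpleGraph (Vert n)) : Prop :=
  ∃ x : Vert n → Eu d, Function.Injective x ∧ (∀ i, x (Sum.inl i) = a i) ∧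
    (S = ⋃ (u : Vert n) (v : Vert n) (_ : G.Adj u v), segment ℝ (x u) (x v)) ∧
    ∀ u v u' v', G.Adj u v → G.Adj u' v' → s(u, v) ≠ s(u', v') →
      segment ℝ (x u) (x v) ∩ segment ℝ (x u') (x v') ⊆ x '' ({u, v} ∩ {u', v'})

/-- The full topologies of the full Steiner trees for the terminals `a`. -/
def optimal {d n : ℕ} (a : Fin n → Eu d) : Set (Topology n) :=
  {t | ∃ G : SimpleGraph (Vert n), IsFull G ∧ t = Quotient.mk (topSetoid n) G ∧
    ∃ S : Set (Eu d), IsSteinerTree (Set.range a) S ∧ HasTopology a S G}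

/-- The maximal number of full topologies of full Steiner trees for a set of `n` points in
Euclidean `d`-space. (The set is bounded, see `optimal_le_N`: there are only finitely many
topologies.) -/
noncomputable def N (d n : ℕ) : ℕ :=
  sSup {k : ℕ | ∃ a : Fin n → Eu d, Function.Injective a ∧ k = (optimal a).ncard}

instance (n : ℕ) : Finite (Topology n) := Quotient.finite _

/-- `N d n` is an upper bound for the number of optimal full topologies. -/
theorem optimal_le_N {d n : ℕ} (a : Fin n → Eu d) (ha : Function.Injective a) :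
    (optimal a).ncard ≤ N d n := by
  refine le_csSup ⟨Nat.card (Topology n), ?_⟩ ⟨a, ha, rfl⟩
  rintro k ⟨b, -, rfl⟩
  exact Set.ncard_le_card _

/-- `N d n` is attained. -/
theorem exists_eq_N {d n : ℕ} (hd : 0 < d) :
    ∃ a : Fin n → Eu d, Function.Injective a ∧ (optimal a).ncard = N d n := by
  have hne : {k : ℕ | ∃ a : Fin n → Eu d, Function.Injective a ∧
      k = (optimal a).ncard}.Nonempty := by
    refine ⟨_, fun i => EuclideanSpace.single ⟨0, hd⟩ (i : ℝ), ?_, rfl⟩
    intro i j hij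
    have h1 := congrArg (fun v : Eu d => v ⟨0, hd⟩) hij
    simp only [PiLp.single_apply, if_true, Nat.cast_inj] at h1
    exact Fin.ext h1
  obtain ⟨a, ha, h⟩ := Nat.sSup_mem hne ⟨Nat.card (Topology n), by
    rintro k ⟨b, -, rfl⟩
    exact Set.ncard_le_card _⟩
  exact ⟨a, ha, h.symm⟩

open Pool.Agent.E8helper35 Pool.Agent.E8helper35.Steiner

lemma good_of_tree {d n : ℕ} {a : Fin n → Eu d} {G : SimpleGraph (Vert n)} (hG : IsFull G)
    {S : Set (Eu d)} (hS : IsSteinerTree (Set.range a) S) (hT : HasTopology a S G) :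
    ∃ x : Vert n → Eu d, Good G x (Set.range Sum.inl) ∧ ∀ i, x (Sum.inl i) = a i := by
  obtain ⟨x, hx, hxa, hSx, hdisj⟩ := hT
  refine ⟨x, ⟨hG.isTree.isAcyclic, hx, ?_, ?_, ?_⟩, hxa⟩
  · rintro (i | s) hv
    · exact absurd ⟨i, rfl⟩ hv
    · exact hG.steiner s
  · rintro _ ⟨i, rfl⟩
    exact hG.terminal i
  · refine sep_of_min hG.isTree.connected (S := S) ?_ ?_ ?_
    · rw [hSx]
      ext p
      simp only [Set.mem_iUnion, exists_prop]
      constructor
      · rintro ⟨u, v, huv, hp⟩
        exact ⟨s(u, v), huv, hp⟩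
      · rintro ⟨e, he, hp⟩
        induction e using Sym2.ind with
        | _ u v => exact ⟨u, v, he, hp⟩
    · intro e he e' he' hne
      induction e using Sym2.ind with
      | _ u v =>
        induction e' using Sym2.ind with
        | _ u' v' =>
          exact (Set.toFinite (x '' ({u, v} ∩ {u', v'}))).subset
            (hdisj u v u' v' he he' hne)
    · intro S' h1 h2 h3
      refine hS.2.2.2 S' h1 h2 (Set.Subset.trans ?_ h3)
      rintro _ ⟨i, rfl⟩
      exact ⟨Sum.inl i, hxa i⟩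

lemma optimal_le {d n : ℕ} (hn : 0 < n) (a : Fin n → Eu d) :
    (optimal a).ncard ≤ (2 ^ kC (Eu d)) ^ n := by
  classical
  have hfin : (optimal a).Finite := Set.toFinite _
  have hrep : ∀ t ∈ optimal a, ∃ G : SimpleGraph (Vert n), IsFull G ∧
      t = Quotient.mk (topSetoid n) G ∧
      ∃ S : Set (Eu d), IsSteinerTree (Set.range a) S ∧ HasTopology a S G := fun t ht => ht
  choose! g hg1 hg2 hg3 using hrep
  have hinj : Set.InjOn g (optimal a) := by
    intro t ht t' ht' h
    rw [hg2 t ht, hg2 t' ht', h]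
  let 𝒢 : Finset (SimpleGraph (Vert n)) := hfin.toFinset.image g
  have h1 : (optimal a).ncard = 𝒢.card := by
    rw [Finset.card_image_of_injOn (by simpa using hinj), Set.ncard_eq_toFinset_card _ hfin]
  have hmem : ∀ G ∈ 𝒢, ∃ t ∈ optimal a, g t = G := by
    intro G hG
    obtain ⟨t, ht, h⟩ := Finset.mem_image.1 hG
    exact ⟨t, hfin.mem_toFinset.1 ht, h⟩
  let x₀ : Vert n → Eu d := Sum.elim a fun _ => 0
  have h2 := card_le_of_good (E := Eu d) (Set.range (Sum.inl : Fin n → Vert n))
    ⟨Sum.inl ⟨0, hn⟩, ⟨⟨0, hn⟩, rfl⟩⟩ x₀ 𝒢 (by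
      intro G hG
      obtain ⟨t, ht, rfl⟩ := hmem G hG
      obtain ⟨S, hS1, hS2⟩ := hg3 t ht
      obtain ⟨x, hx1, hx2⟩ := good_of_tree (hg1 t ht) hS1 hS2
      refine ⟨x, hx1, ?_⟩
      rintro _ ⟨i, rfl⟩
      exact hx2 i) (by
      intro G hG G' hG' hiso
      obtain ⟨t, ht, rfl⟩ := hmem G hG
      obtain ⟨t', ht', rfl⟩ := hmem G' hG'
      obtain ⟨φ, hφ⟩ := hiso
      have : t = t' := by
        rw [hg2 t ht, hg2 t' ht']
        exact Quotient.sound ⟨φ, fun i => hφ _ ⟨i, rfl⟩⟩
      rw [this])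
  rw [h1]
  refine h2.trans (le_of_eq ?_)
  rw [← pow_mul, ← Set.image_univ, Set.ncard_image_of_injective _ Sum.inl_injective,
    Set.ncard_univ, Nat.card_fin]

/-- The upper bound. -/
theorem N_le (d : ℕ) : ∃ C : ℕ, ∀ n : ℕ, 3 ≤ n → N d n ≤ C ^ n := by
  refine ⟨2 ^ kC (Eu d), fun n hn => ?_⟩
  rw [N]
  rcases Set.eq_empty_or_nonempty
    {k : ℕ | ∃ a : Fin n → Eu d, Function.Injective a ∧ k = (optimal a).ncard} with h | h
  · rw [h]
    simp
  · refine csSup_le h ?_
    rintro k ⟨a, -, rfl⟩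
    exact optimal_le (by omega) a

open scoped InnerProductSpace in
/-- Two unit vectors of Euclidean space with an angle of sixty degrees. -/
lemma exists_frame {d : ℕ} (hd : 2 ≤ d) : ∃ u v : Eu d, Low.Frame u v := by
  let i : Fin d := ⟨0, by omega⟩
  let j : Fin d := ⟨1, by omega⟩
  have hij : i ≠ j := by simp [i, j]
  let e₁ : Eu d := EuclideanSpace.single i 1
  let e₂ : Eu d := EuclideanSpace.single j 1
  have h11 : ⟪e₁, e₁⟫_ℝ = 1 := by simp [e₁]
  have h22 : ⟪e₂, e₂⟫_ℝ = 1 := by simp [e₂]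
  have h12 : ⟪e₁, e₂⟫_ℝ = 0 := by
    simp [e₁, e₂, EuclideanSpace.inner_single_left, hij]
  have h21 : ⟪e₂, e₁⟫_ℝ = 0 := by rw [real_inner_comm]; exact h12
  have hs : Real.sqrt 3 * Real.sqrt 3 = 3 := Real.mul_self_sqrt (by norm_num)
  refine ⟨e₁, (1 / 2 : ℝ) • e₁ + (Real.sqrt 3 / 2) • e₂, ⟨?_, ?_, ?_⟩⟩
  · have : ‖e₁‖ ^ 2 = 1 := by rw [← real_inner_self_eq_norm_sq, h11]
    have h0 := norm_nonneg e₁
    nlinarith
  · have : ‖(1 / 2 : ℝ) • e₁ + (Real.sqrt 3 / 2) • e₂‖ ^ 2 = 1 := by
      rw [← real_inner_self_eq_norm_sq]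
      simp only [inner_add_left, inner_add_right, inner_smul_left, inner_smul_right, h11, h22, h12,
        h21, conj_trivial]
      nlinarith
    have h0 := norm_nonneg ((1 / 2 : ℝ) • e₁ + (Real.sqrt 3 / 2) • e₂)
    nlinarith
  · simp only [inner_add_right, inner_smul_right, h11, h12]
    norm_num

/-- The lower bound. -/
theorem le_N {d : ℕ} (hd : 2 ≤ d) {n : ℕ} (hn : 3 ≤ n) : 2 ^ ((n - 2) / 10) ≤ N d n := by
  classical
  obtain ⟨u, v, hf⟩ := exists_frame hd
  obtain ⟨a, G, ha, hG, hdist⟩ := Low.exists_low hf ((n - 2) / 10) ((n - 2) % 10) n (by omega)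
  refine le_trans ?_ (optimal_le_N a ha)
  let t : Fin (2 ^ ((n - 2) / 10)) → Topology n := fun c => Quotient.mk (topSetoid n) (G c)
  have hmem : ∀ c, t c ∈ optimal a := by
    intro c
    obtain ⟨h1, h2, h3, x, hx1, hx2, hx3, hx4⟩ := hG c
    exact ⟨G c, ⟨h1, h2, h3⟩, rfl, Low.body (G c) x, hx3, x, hx1, hx2, rfl, hx4⟩
  have hinj : Function.Injective t := by
    intro c c' hcc
    exact hdist c c' (Quotient.exact hcc)
  have h1 : Set.range t ⊆ optimal a := by
    rintro _ ⟨c, rfl⟩
    exact hmem c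
  refine le_trans (le_of_eq ?_) (Set.ncard_le_ncard h1 (Set.toFinite _))
  rw [← Set.image_univ, Set.ncard_image_of_injective _ hinj, Set.ncard_univ, Nat.card_fin]

open Asymptotics in
/-- **Main result.** Let `d ≥ 2`. There is a constant `C` such that
`2 ^ ((n - 2) / 10) ≤ N d n ≤ C ^ n` for all `n ≥ 3`, and the order of growth of
`log (N d n)` is `n`. -/
theorem result (d : ℕ) (hd : 2 ≤ d) :
    (∃ C : ℕ, ∀ n : ℕ, 3 ≤ n → 2 ^ ((n - 2) / 10) ≤ N d n ∧ N d n ≤ C ^ n) ∧
      (fun n : ℕ => Real.log (N d n)) =Θ[Filter.atTop] fun n : ℕ => (n : ℝ) := by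
  obtain ⟨C, hC⟩ := N_le d
  refine ⟨⟨C, fun n hn => ⟨le_N hd hn, hC n hn⟩⟩, ?_, ?_⟩
  · -- the upper bound
    refine IsBigO.of_bound (Real.log C) ?_
    filter_upwards [Filter.eventually_ge_atTop 3] with n hn
    have h1 : (1 : ℝ) ≤ N d n := by
      exact_mod_cast le_trans (Nat.one_le_two_pow) (le_N hd hn)
    have h2 : (N d n : ℝ) ≤ (C : ℝ) ^ n := by exact_mod_cast hC n hn
    rw [Real.norm_of_nonneg (Real.log_nonneg h1), Real.norm_of_nonneg (Nat.cast_nonneg n)]
    calc Real.log (N d n) ≤ Real.log ((C : ℝ) ^ n) := Real.log_le_log (by linarith) h2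
      _ = Real.log C * n := by rw [Real.log_pow]; ring
  · -- the lower bound
    refine IsBigO.of_bound (100 / Real.log 2) ?_
    filter_upwards [Filter.eventually_ge_atTop 12] with n hn
    have hl : 0 < Real.log 2 := Real.log_pos (by norm_num)
    have h1 : (1 : ℝ) ≤ N d n := by
      exact_mod_cast le_trans (Nat.one_le_two_pow) (le_N hd (by omega : 3 ≤ n))
    have h2 : (2 : ℝ) ^ ((n - 2) / 10) ≤ N d n := by
      exact_mod_cast le_N hd (by omega : 3 ≤ n)
    have h3 : ((n - 2) / 10 : ℕ) * Real.log 2 ≤ Real.log (N d n) := by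
      rw [← Real.log_pow]
      exact Real.log_le_log (by positivity) h2
    have h4 : (n : ℝ) ≤ 100 * ((n - 2) / 10 : ℕ) := by
      have : n ≤ 100 * ((n - 2) / 10) := by omega
      exact_mod_cast this
    rw [Real.norm_of_nonneg (Real.log_nonneg h1), Real.norm_of_nonneg (Nat.cast_nonneg n)]
    rw [div_mul_eq_mul_div, le_div_iff₀ hl]
    calc (n : ℝ) * Real.log 2 ≤ 100 * ((n - 2) / 10 : ℕ) * Real.log 2 :=
          mul_le_mul_of_nonneg_right h4 hl.le
      _ = 100 * (((n - 2) / 10 : ℕ) * Real.log 2) := by ring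
      _ ≤ 100 * Real.log (N d n) := by linarith

end Pool.Agent.Results.MP_816b7a_co.GrowthOrderH35
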